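import Pool.Agent.H398.Kt.Summ3

/-!
# MP_bd685a_al, characteristic 2: the largest value of a dimension bounded species at `M` is
attained at a self-conjugate species
-/

set_option autoImplicit false

namespace Pool.Agent.Results.MP_bd685a_al.SelfConjugateSpecies

open Pool.Agent.H398.Gam Ob

universe u v

/-- A species of the representation ring of `G` over `k`, given by its values on representations:
it depends only on the isomorphism class, is additive for direct sums, multiplicative for tensor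
products, and `1` on the trivial representation. -/
structure Species (k : Type u) [Field k] (G : Type v) [Group G] where
  /-- the values on representations -/
  s : Ob k G → ℂ
  iso : ∀ A B, A.Iso B → s A = s B
  prod : ∀ A B, s (A.prod B) = s A + s B
  tens : ∀ A B, s (A.tens B) = s A * s B
  one : s (Ob.one k G) = 1

/-- `|s(A)| ≤ dim A` for all representations `A`. -/
def DimensionBounded {k : Type u} [Field k] {G : Type v} [Group G] (σ : Species k G) : Prop :=
  ∀ A : Ob k G, ‖σ.s A‖ ≤ A.dim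

/-- `s(P) = 0` for all projective `P`. -/
def VanishesOnProjectives {k : Type u} [Field k] {G : Type v} [Group G] (σ : Species k G) : Prop :=
  ∀ P : Ob k G, P.IsProj → σ.s P = 0

theorem coreDim_le_dim {k : Type u} [Field k] {G : Type v} [Group G] [Fintype G] (A : Ob k G) :
    A.coreDim ≤ A.dim :=
  coreDim_le (A := A) (B := A) (zero_isProj hH) (prod_zero A)

theorem norm_le_gamma {k : Type u} [Field k] {G : Type v} [Group G] [Fintype G]
    (σ : Species k G) (hb : DimensionBounded σ) (hp : VanishesOnProjectives σ)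
    (M : Ob k G) (hM : ¬ M.IsProj) : ‖σ.s M‖ ≤ M.gamma := by
  have hcore : ∀ A : Ob k G, ‖σ.s A‖ ≤ A.coreDim := by
    intro A
    obtain ⟨B, P, hP, hi, hd⟩ := exists_core hH A
    rw [σ.iso _ _ hi, σ.prod, hp P hP, add_zero, ← hd]
    exact hb B
  have hpow : ∀ n, σ.s (M.pow n) = σ.s M ^ n := by
    intro n
    induction n with
    | zero => rw [pow_zero]; exact σ.one
    | succ n ih => rw [pow_succ, ← ih]; exact σ.tens _ _
  refine le_of_forall_pos_le_add (fun ε hε => ?_)
  obtain ⟨m, hm, hle⟩ := cn_le_pow hH M hM ε hε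
  have h1 : ‖σ.s M‖ ^ m ≤ (M.gamma + ε) ^ m := by
    rw [← norm_pow, ← hpow]
    exact (hcore _).trans hle
  exact le_of_pow_le_pow_left₀ hm.ne' (by linarith [gamma_pos hH M hM]) h1

/-- `m` copies of `A`. -/
noncomputable def cop {k : Type u} [Field k] {G : Type v} [Group G] (m : ℕ) (A : Ob k G) : Ob k G :=
  Nat.rec (Ob.zero k G) (fun _ B => A.prod B) m

/-- The module `⊕ ⌊n a_i⌋ M_i`. -/
noncomputable def app {k : Type u} [Field k] {G : Type v} [Group G] (n : ℕ)
    (l : List (ℝ × Ob k G)) : Ob k G :=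
  (l.map (fun q => cop ⌊(n : ℝ) * q.1⌋₊ q.2)).foldr Ob.prod (Ob.zero k G)

theorem Species.zero' {k : Type u} [Field k] {G : Type v} [Group G] (τ : Species k G) :
    τ.s (Ob.zero k G) = 0 := by
  have h := τ.iso _ _ (prod_zero (Ob.zero k G))
  rw [τ.prod] at h
  have h2 : τ.s (Ob.zero k G) + τ.s (Ob.zero k G) = τ.s (Ob.zero k G) := by
    first
      | exact h
      | exact h.symm
  linear_combination h2

theorem Species.cop {k : Type u} [Field k] {G : Type v} [Group G] (τ : Species k G) (m : ℕ)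
    (A : Ob k G) : τ.s (cop m A) = m * τ.s A := by
  induction m with
  | zero =>
    change τ.s (Ob.zero k G) = _
    rw [τ.zero']; simp
  | succ m ih =>
    change τ.s (A.prod (SelfConjugateSpecies.cop m A)) = _
    rw [τ.prod, ih]; push_cast; ring

theorem pc_cop {k : Type u} [Field k] {G : Type v} [Group G] (φ : PosChar k G) (m : ℕ)
    (A : Ob k G) : φ.f (cop m A) = m * φ.f A := by
  induction m with
  | zero =>
    change φ.f (Ob.zero k G) = _
    rw [φ.f_zero _ zero_dim]; simp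
  | succ m ih =>
    change φ.f (A.prod (SelfConjugateSpecies.cop m A)) = _
    rw [φ.prod, ih]; push_cast; ring

theorem lemA {k : Type u} [Field k] {G : Type v} [Group G] (τ : Species k G)
    (hb : DimensionBounded τ) (n : ℕ) (l : List (ℝ × Ob k G)) (hl : ∀ q ∈ l, 0 ≤ q.1) :
    ‖(n : ℂ) * (l.map (fun q => (q.1 : ℂ) * τ.s q.2)).sum - τ.s (app n l)‖ ≤
      (l.map (fun q => (q.2.dim : ℝ))).sum := by
  induction l with
  | nil =>
    change ‖(n : ℂ) * 0 - τ.s (Ob.zero k G)‖ ≤ 0
    rw [τ.zero']; simp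
  | cons q l ih =>
    have h1 := ih (fun p hp => hl p (List.mem_cons_of_mem _ hp))
    have h2 : app n (q :: l) = (cop ⌊(n : ℝ) * q.1⌋₊ q.2).prod (app n l) := rfl
    rw [List.map_cons, List.sum_cons, List.map_cons, List.sum_cons, h2, τ.prod, τ.cop]
    have h3 : (n : ℂ) * ((q.1 : ℂ) * τ.s q.2 + (l.map (fun q => (q.1 : ℂ) * τ.s q.2)).sum) -
        (((⌊(n : ℝ) * q.1⌋₊ : ℕ) : ℂ) * τ.s q.2 + τ.s (app n l)) =
        (((n : ℝ) * q.1 - (⌊(n : ℝ) * q.1⌋₊ : ℕ) : ℝ) : ℂ) * τ.s q.2 +
          ((n : ℂ) * (l.map (fun q => (q.1 : ℂ) * τ.s q.2)).sum - τ.s (app n l)) := by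
      push_cast; ring
    rw [h3]
    refine (norm_add_le _ _).trans (add_le_add ?_ h1)
    rw [norm_mul, Complex.norm_real]
    have h4 : 0 ≤ (n : ℝ) * q.1 := mul_nonneg (Nat.cast_nonneg _) (hl q List.mem_cons_self)
    have h5 := Nat.floor_le h4
    have h6 := Nat.lt_floor_add_one ((n : ℝ) * q.1)
    rw [Real.norm_of_nonneg (by linarith)]
    calc _ ≤ 1 * ‖τ.s q.2‖ := mul_le_mul_of_nonneg_right (by linarith) (norm_nonneg _)
      _ = ‖τ.s q.2‖ := one_mul _
      _ ≤ _ := hb q.2

theorem lemB {k : Type u} [Field k] {G : Type v} [Group G] (φ : PosChar k G) (n : ℕ)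
    (l : List (ℝ × Ob k G)) (hl : ∀ q ∈ l, 0 ≤ q.1) :
    φ.f (app n l) ≤ n * (l.map (fun q => q.1 * φ.f q.2)).sum := by
  induction l with
  | nil =>
    change φ.f (Ob.zero k G) ≤ (n : ℝ) * 0
    rw [φ.f_zero _ zero_dim]; simp
  | cons q l ih =>
    have h1 := ih (fun p hp => hl p (List.mem_cons_of_mem _ hp))
    have h2 : app n (q :: l) = (cop ⌊(n : ℝ) * q.1⌋₊ q.2).prod (app n l) := rfl
    rw [List.map_cons, List.sum_cons, h2, φ.prod, pc_cop]
    have h4 : 0 ≤ (n : ℝ) * q.1 := mul_nonneg (Nat.cast_nonneg _) (hl q List.mem_cons_self)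
    have h5 := mul_le_mul_of_nonneg_right (Nat.floor_le h4) (φ.nonneg q.2)
    linarith

theorem result (k : Type u) [Field k] [CharP k 2] (G : Type v) [Group G] [Fintype G]
    (M₀ : Ob k G) (hM₀ : ¬ M₀.IsProj) (l : List (ℝ × Ob k G)) (hl : ∀ q ∈ l, 0 ≤ q.1) :
    ∃ σ : Species k G, DimensionBounded σ ∧ VanishesOnProjectives σ ∧
      (∀ A : Ob k G, ∃ x : ℝ, 0 ≤ x ∧ σ.s A = x) ∧
      (∀ A : Ob k G, σ.s A.dual = (starRingEnd ℂ) (σ.s A)) ∧
      ∀ τ : Species k G, DimensionBounded τ → VanishesOnProjectives τ →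
        ‖(l.map (fun q => (q.1 : ℂ) * τ.s q.2)).sum‖ ≤
          ‖(l.map (fun q => (q.1 : ℂ) * σ.s q.2)).sum‖ := by
  have hex : ∀ n : ℕ, ∃ φ : PosChar k G, (∀ A, φ.f A ≤ A.coreDim) ∧
      (∀ A, φ.f A = φ.f A.dual) ∧ ∀ τ : Species k G, DimensionBounded τ →
        VanishesOnProjectives τ → ‖τ.s (app n l)‖ ≤ φ.f (app n l) := by
    intro n
    by_cases hN : (app n l).IsProj
    · obtain ⟨φ, a1, a2, a3⟩ := Pool.Agent.H398.Kt.exists_symm_all G M₀ hM₀
      refine ⟨φ, a1, a3, fun τ hb hp => ?_⟩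
      rw [hp _ hN, norm_zero]
      exact φ.nonneg _
    · obtain ⟨φ, a1, a2, a3⟩ := Pool.Agent.H398.Kt.exists_symm_all G (app n l) hN
      refine ⟨φ, a1, a3, fun τ hb hp => ?_⟩
      rw [a2]
      exact norm_le_gamma τ hb hp _ hN
  choose φs b1 b2 b3 using hex
  obtain ⟨φ, hφ, hT⟩ := Pool.Agent.H398.Kt.ultralimit φs b1
  have hsym : ∀ A, φ.f A = φ.f A.dual := by
    intro A
    refine tendsto_nhds_unique (hT A) ?_
    exact (hT A.dual).congr (fun n => (b2 n A).symm)
  have hlim : Filter.Tendsto (fun n => (l.map (fun q => q.1 * (φs n).f q.2)).sum)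
      (Filter.hyperfilter ℕ : Filter ℕ) (nhds ((l.map (fun q => q.1 * φ.f q.2)).sum)) := by
    clear hl b3
    induction l with
    | nil => exact tendsto_const_nhds
    | cons q l ih =>
      simp only [List.map_cons, List.sum_cons]
      exact ((hT q.2).const_mul q.1).add ih
  set C : ℝ := (l.map (fun q => (q.2.dim : ℝ))).sum with hC
  have hval : ∀ (χ : PosChar k G), ((l.map (fun q => (q.1 : ℂ) * (χ.f q.2 : ℂ))).sum : ℂ) =
      (((l.map (fun q => q.1 * χ.f q.2)).sum : ℝ) : ℂ) := by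
    intro χ
    clear hl b3 hlim hC C
    induction l with
    | nil => simp
    | cons q l ih =>
      simp only [List.map_cons, List.sum_cons]
      rw [ih]; push_cast; ring
  have hnn : 0 ≤ (l.map (fun q => q.1 * φ.f q.2)).sum := by
    clear b3 hlim hC C hval
    induction l with
    | nil => simp
    | cons q l ih =>
      simp only [List.map_cons, List.sum_cons]
      exact add_nonneg (mul_nonneg (hl q List.mem_cons_self) (φ.nonneg _))
        (ih (fun p hp => hl p (List.mem_cons_of_mem _ hp)))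
  refine ⟨⟨fun A => (φ.f A : ℂ), fun A B h => by rw [φ.iso A B h],
    fun A B => by rw [φ.prod, Complex.ofReal_add], fun A B => by rw [φ.tens, Complex.ofReal_mul],
    by rw [φ.one, Complex.ofReal_one]⟩, fun A => ?_, fun P hP => ?_,
    fun A => ⟨φ.f A, φ.nonneg A, rfl⟩, fun A => ?_, fun τ hb hp => ?_⟩
  · change ‖(φ.f A : ℂ)‖ ≤ _
    rw [Complex.norm_real, Real.norm_of_nonneg (φ.nonneg A)]
    refine (hφ A).trans ?_
    exact_mod_cast coreDim_le_dim A
  · change (φ.f P : ℂ) = 0
    rw [good_proj hH φ hφ P hP, Complex.ofReal_zero]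
  · change (φ.f A.dual : ℂ) = (starRingEnd ℂ) (φ.f A : ℂ)
    rw [Complex.conj_ofReal, hsym A]
  · change _ ≤ ‖((l.map (fun q => (q.1 : ℂ) * (φ.f q.2 : ℂ))).sum : ℂ)‖
    rw [hval, Complex.norm_real, Real.norm_of_nonneg hnn]
    have hstep : ∀ n : ℕ, 1 ≤ n → ‖(l.map (fun q => (q.1 : ℂ) * τ.s q.2)).sum‖ ≤
        (l.map (fun q => q.1 * (φs n).f q.2)).sum + C / n := by
      intro n hn
      have hn0 : (0 : ℝ) < n := by exact_mod_cast hn
      have c1 := lemA τ hb n l hl
      have c2 := b3 n τ hb hp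
      have c3 := lemB (φs n) n l hl
      have c4 : ‖(n : ℂ) * (l.map (fun q => (q.1 : ℂ) * τ.s q.2)).sum‖ ≤
          n * (l.map (fun q => q.1 * (φs n).f q.2)).sum + C := by
        have c5 := norm_sub_norm_le ((n : ℂ) * (l.map (fun q => (q.1 : ℂ) * τ.s q.2)).sum)
          (τ.s (app n l))
        linarith
      rw [norm_mul, Complex.norm_natCast] at c4
      rw [← sub_nonneg]
      have c6 : 0 ≤ (n : ℝ) * ((l.map (fun q => q.1 * (φs n).f q.2)).sum + C / n -
          ‖(l.map (fun q => (q.1 : ℂ) * τ.s q.2)).sum‖) := by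
        have : (n : ℝ) * (C / n) = C := mul_div_cancel₀ _ hn0.ne'
        rw [mul_sub, mul_add, this]
        linarith
      exact nonneg_of_mul_nonneg_right c6 hn0
    have hcof : (Filter.hyperfilter ℕ : Filter ℕ) ≤ Filter.atTop :=
      Filter.hyperfilter_le_cofinite.trans Nat.cofinite_eq_atTop.le
    have hlim2 : Filter.Tendsto (fun n : ℕ => (l.map (fun q => q.1 * (φs n).f q.2)).sum + C / n)
        (Filter.hyperfilter ℕ : Filter ℕ) (nhds ((l.map (fun q => q.1 * φ.f q.2)).sum + 0)) :=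
      hlim.add ((tendsto_const_div_atTop_nhds_zero_nat C).mono_left hcof)
    rw [add_zero] at hlim2
    refine ge_of_tendsto hlim2 ?_
    exact ((Filter.eventually_ge_atTop 1).filter_mono hcof).mono (fun n hn => hstep n hn)

end Pool.Agent.Results.MP_bd685a_al.SelfConjugateSpecies
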